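import Mathlib

set_option autoImplicit false

open Set Metric Filter Function
open scoped Topology RealInnerProductSpace

namespace Pool.Agent.H8.Sph

noncomputable section

variable {W : Type} [NormedAddCommGroup W] [InnerProductSpace ℝ W] (e : W)

/-- The coordinate along `e`. -/
def y (w : W) : ℝ := ⟪e, w⟫

/-- The projection along `e`. -/
def P (w : W) : W := w - y e w • e

theorem y_add (v w : W) : y e (v + w) = y e v + y e w := inner_add_right _ _ _
theorem y_sub (v w : W) : y e (v - w) = y e v - y e w := inner_sub_right _ _ _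
theorem y_smul (t : ℝ) (w : W) : y e (t • w) = t * y e w := real_inner_smul_right _ _ _
theorem y_e (he : ‖e‖ = 1) : y e e = 1 := by
  unfold y
  rw [real_inner_self_eq_norm_sq, he]
  norm_num
theorem y_cont : Continuous (y e) := by unfold y; fun_prop
theorem P_cont : Continuous (P e) := by
  unfold P
  have := y_cont e
  fun_prop

theorem y_le (he : ‖e‖ = 1) (w : W) : |y e w| ≤ ‖w‖ := by
  have := abs_real_inner_le_norm e w
  rwa [he, one_mul] at this

theorem P_add (v w : W) : P e (v + w) = P e v + P e w := by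
  unfold P; rw [y_add]; module
theorem P_sub (v w : W) : P e (v - w) = P e v - P e w := by
  unfold P; rw [y_sub]; module
theorem P_e (he : ‖e‖ = 1) (t : ℝ) : P e (t • e) = 0 := by
  unfold P; rw [y_smul, y_e e he]; module
theorem y_P (he : ‖e‖ = 1) (w : W) : y e (P e w) = 0 := by
  unfold P; rw [y_sub, y_smul, y_e e he]; ring
theorem P_P (he : ‖e‖ = 1) (w : W) : P e (P e w) = P e w := by
  conv_lhs => unfold P
  have := y_P e he w
  unfold P at this ⊢
  rw [this]
  module
theorem dec (w : W) : w = P e w + y e w • e := by unfold P; module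

theorem P_le (he : ‖e‖ = 1) (w : W) : ‖P e w‖ ≤ 2 * ‖w‖ := by
  unfold P
  have h1 := norm_sub_le w (y e w • e)
  rw [norm_smul, he, mul_one, Real.norm_eq_abs] at h1
  have h2 := y_le e he w
  linarith

/-- The penalty. -/
def pen (w c : W) : ℝ := max (y e w - y e c) 0 + ‖P e (w - c)‖

theorem pen_nonneg (w c : W) : 0 ≤ pen e w c :=
  add_nonneg (le_max_right _ _) (norm_nonneg _)

/-- The functions whose infimum is taken. -/
def φ (k : ℝ) (w c : W) : ℝ := y e c + k * pen e w c

theorem φ_lower (k : ℝ) (_ : 1 ≤ k) (w c : W) : y e w + (k - 1) * pen e w c ≤ φ e k w c := by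
  unfold φ
  have h1 : y e w - y e c ≤ pen e w c := by
    unfold pen
    have := le_max_left (y e w - y e c) 0
    have := norm_nonneg (P e (w - c))
    linarith
  linarith

theorem φ_lower' (k : ℝ) (hk : 1 ≤ k) (w c : W) : y e w ≤ φ e k w c := by
  refine le_trans ?_ (φ_lower e k hk w c)
  have := mul_nonneg (sub_nonneg.2 hk) (pen_nonneg e w c)
  linarith

theorem pen_lip (w w' c : W) : pen e w c ≤ pen e w' c + (|y e (w - w')| + ‖P e (w - w')‖) := by
  unfold pen
  have h1 : max (y e w - y e c) 0 ≤ max (y e w' - y e c) 0 + |y e (w - w')| := by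
    rw [y_sub]
    apply max_le
    · have := le_max_left (y e w' - y e c) 0
      have := le_abs_self (y e w - y e w')
      linarith
    · have := le_max_right (y e w' - y e c) 0
      have := abs_nonneg (y e w - y e w')
      linarith
  have h2 : ‖P e (w - c)‖ ≤ ‖P e (w' - c)‖ + ‖P e (w - w')‖ := by
    have : P e (w - c) = P e (w' - c) + P e (w - w') := by
      rw [← P_add]; congr 1; abel
    rw [this]
    exact norm_add_le _ _
  linarith

variable (C : Set W)

/-- The infimum. -/
def m (k : ℝ) (w : W) : ℝ := ⨅ c : C, φ e k w c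

theorem bdd (k : ℝ) (hk : 1 ≤ k) (w : W) : BddBelow (range fun c : C => φ e k w c) :=
  ⟨y e w, by rintro _ ⟨c, rfl⟩; exact φ_lower' e k hk w c⟩

theorem m_le (k : ℝ) (hk : 1 ≤ k) (w c : W) (hc : c ∈ C) : m e C k w ≤ φ e k w c :=
  ciInf_le (bdd e C k hk w) ⟨c, hc⟩

theorem le_m (hC : C.Nonempty) (k : ℝ) (w : W) (a : ℝ) (h : ∀ c ∈ C, a ≤ φ e k w c) :
    a ≤ m e C k w := by
  have := hC.to_subtype
  exact le_ciInf fun c => h c c.2

theorem m_lower (hC : C.Nonempty) (k : ℝ) (hk : 1 ≤ k) (w : W) : y e w ≤ m e C k w :=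
  le_m e C hC k w _ fun c _ => φ_lower' e k hk w c

theorem m_lip (hC : C.Nonempty) (k : ℝ) (hk : 1 ≤ k) (w w' : W) :
    m e C k w ≤ m e C k w' + k * (|y e (w - w')| + ‖P e (w - w')‖) := by
  rw [← sub_le_iff_le_add]
  apply le_m e C hC
  intro c hc
  have h1 := m_le e C k hk w c hc
  have h2 := pen_lip e w w' c
  have h3 : φ e k w c ≤ φ e k w' c + k * (|y e (w - w')| + ‖P e (w - w')‖) := by
    unfold φ
    nlinarith
  linarith

theorem m_mono (he : ‖e‖ = 1) (hC : C.Nonempty) (k : ℝ) (hk : 1 ≤ k) (w : W) (t : ℝ) (ht : 0 ≤ t) :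
    m e C k w ≤ m e C k (w + t • e) := by
  apply le_m e C hC
  intro c hc
  refine (m_le e C k hk w c hc).trans ?_
  unfold φ pen
  have h1 : P e (w + t • e - c) = P e (w - c) := by
    have : w + t • e - c = (w - c) + t • e := by abel
    rw [this, P_add, P_e e he, add_zero]
  rw [h1, y_add, y_smul, y_e e he]
  have h2 : max (y e w - y e c) 0 ≤ max (y e w + t * 1 - y e c) 0 := by
    apply max_le_max _ le_rfl
    linarith
  nlinarith

/-- The height function. -/
def h (k : ℝ) (w : W) : ℝ := m e C k w + y e w / k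

/-- The map. -/
def T (k : ℝ) (w : W) : W := P e w + h e C k w • e

theorem m_cont (he : ‖e‖ = 1) (hC : C.Nonempty) (k : ℝ) (hk : 1 ≤ k) : Continuous (m e C k) := by
  have : LipschitzWith (Real.toNNReal (k * 3)) (m e C k) := by
    apply LipschitzWith.of_dist_le_mul
    intro w w'
    rw [Real.coe_toNNReal _ (by positivity), Real.dist_eq, dist_eq_norm]
    have h1 := m_lip e C hC k hk w w'
    have h2 := m_lip e C hC k hk w' w
    have h3 := y_le e he (w - w')
    have h4 := P_le e he (w - w')
    have h5 := y_le e he (w' - w)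
    have h6 := P_le e he (w' - w)
    rw [norm_sub_rev w' w] at h5 h6
    rw [abs_le]
    constructor <;> nlinarith
  exact this.continuous

theorem h_cont (he : ‖e‖ = 1) (hC : C.Nonempty) (k : ℝ) (hk : 1 ≤ k) : Continuous (h e C k) := by
  unfold h
  exact (m_cont e C he hC k hk).add ((y_cont e).div_const _)

theorem T_cont (he : ‖e‖ = 1) (hC : C.Nonempty) (k : ℝ) (hk : 1 ≤ k) : Continuous (T e C k) := by
  unfold T
  exact (P_cont e).add ((h_cont e C he hC k hk).smul continuous_const)

theorem T_surj (he : ‖e‖ = 1) (hC : C.Nonempty) (k : ℝ) (hk : 1 ≤ k) : Surjective (T e C k) := by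
  intro u
  have hk0 : 0 < k := by linarith
  let g : ℝ → ℝ := fun s => h e C k (P e u + s • e)
  have hy : ∀ s, y e (P e u + s • e) = s := by
    intro s
    rw [y_add, y_P e he, y_smul, y_e e he]
    ring
  have hg : Continuous g := (h_cont e C he hC k hk).comp (by fun_prop)
  have htop : Tendsto g atTop atTop := by
    apply tendsto_atTop_mono' (f₁ := fun s => s) _ _ tendsto_id
    filter_upwards [eventually_ge_atTop 0] with s hs
    have h1 := m_lower e C hC k hk (P e u + s • e)
    rw [hy] at h1
    have h2 : 0 ≤ s / k := by positivity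
    simp only [g, h]
    rw [hy]
    linarith
  have hbot : Tendsto g atBot atBot := by
    obtain ⟨c, hc⟩ := hC
    have h3 : Tendsto (fun s : ℝ => (y e c + k * ‖P e (P e u - c)‖) + s / k) atBot atBot :=
      tendsto_atBot_add_const_left _ _ (tendsto_id.atBot_div_const hk0)
    apply tendsto_atBot_mono' _ _ h3
    filter_upwards [eventually_le_atBot (y e c)] with s hs
    have h1 := m_le e C k hk (P e u + s • e) c hc
    have h4 : P e (P e u + s • e - c) = P e (P e u - c) := by
      have : P e u + s • e - c = (P e u - c) + s • e := by abel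
      rw [this, P_add, P_e e he, add_zero]
    have h5 : φ e k (P e u + s • e) c = y e c + k * ‖P e (P e u - c)‖ := by
      unfold φ pen
      rw [h4, hy, max_eq_right (by linarith), zero_add]
    rw [h5] at h1
    simp only [g, h]
    rw [hy]
    linarith
  obtain ⟨s, hs⟩ := hg.surjective htop hbot (y e u)
  refine ⟨P e u + s • e, ?_⟩
  have hs' : h e C k (P e u + s • e) = y e u := hs
  unfold T
  rw [hs', P_add, P_P e he, P_e e he, add_zero, ← dec]

theorem T_anti (he : ‖e‖ = 1) (hC : C.Nonempty) (k : ℝ) (hk : 1 ≤ k) :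
    AntilipschitzWith (Real.toNNReal (2 + k * (6 * k + 1))) (T e C k) := by
  have hk0 : 0 < k := by linarith
  apply AntilipschitzWith.of_le_mul_dist
  intro w w'
  rw [Real.coe_toNNReal _ (by positivity), dist_eq_norm, dist_eq_norm]
  set D := ‖T e C k w - T e C k w'‖ with hD
  have hTP : P e (T e C k w - T e C k w') = P e (w - w') := by
    unfold T
    rw [P_sub, P_add, P_add, P_P e he, P_P e he, P_e e he, P_e e he, add_zero, add_zero, ← P_sub]
  have hTy : y e (T e C k w - T e C k w') = h e C k w - h e C k w' := by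
    unfold T
    rw [y_sub, y_add, y_add, y_P e he, y_P e he, y_smul, y_smul, y_e e he]
    ring
  have h1 : ‖P e (w - w')‖ ≤ 2 * D := by rw [← hTP]; exact P_le e he _
  have h2 : |h e C k w - h e C k w'| ≤ D := by rw [← hTy]; exact y_le e he _
  set t := y e w - y e w' with ht
  set w'' := w' + t • e with hw''
  have hyw'' : y e w'' = y e w := by
    rw [hw'', y_add, y_smul, y_e e he, ht]; ring
  have hd : P e (w - w'') = P e (w - w') := by
    have : w - w'' = (w - w') + (-t) • e := by rw [hw'']; module
    rw [this, P_add, P_e e he, add_zero]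
  have hd' : P e (w'' - w) = - P e (w - w') := by
    rw [← hd, P_sub, P_sub]; abel
  have h3 : |h e C k w - h e C k w''| ≤ k * ‖P e (w - w')‖ := by
    have e1 : h e C k w - h e C k w'' = m e C k w - m e C k w'' := by
      unfold h; rw [hyw'']; ring
    rw [e1]
    have h4 := m_lip e C hC k hk w w''
    have h5 := m_lip e C hC k hk w'' w
    rw [y_sub, hyw'', sub_self, abs_zero, zero_add] at h4 h5
    rw [hd] at h4
    rw [hd', norm_neg] at h5
    rw [abs_le]
    constructor <;> linarith
  have h6 : |t| / k ≤ |h e C k w'' - h e C k w'| := by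
    rcases le_total 0 t with h0 | h0
    · have h7 := m_mono e C he hC k hk w' t h0
      have e2 : h e C k w'' - h e C k w' = (m e C k w'' - m e C k w') + t / k := by
        unfold h
        rw [hyw'', ht]
        ring
      rw [e2, abs_of_nonneg h0]
      refine le_trans ?_ (le_abs_self _)
      rw [← hw''] at h7
      linarith
    · have h7 := m_mono e C he hC k hk w'' (-t) (by linarith)
      have e3 : w'' + (-t) • e = w' := by rw [hw'']; module
      rw [e3] at h7
      have e2 : h e C k w'' - h e C k w' = (m e C k w'' - m e C k w') + t / k := by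
        unfold h
        rw [hyw'', ht]
        ring
      rw [e2, abs_of_nonpos h0]
      refine le_trans ?_ (neg_le_abs _)
      have : -t / k = -(t / k) := by ring
      rw [this]
      linarith
  have h8 : |h e C k w'' - h e C k w'| ≤ |h e C k w - h e C k w''| + |h e C k w - h e C k w'| := by
    have : h e C k w'' - h e C k w' = -(h e C k w - h e C k w'') + (h e C k w - h e C k w') := by ring
    rw [this]
    refine (abs_add_le _ _).trans ?_
    rw [abs_neg]
  have h9 : |t| ≤ k * (2 * k * D + D) := by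
    have h10 : |t| / k ≤ 2 * k * D + D := by
      have : k * ‖P e (w - w')‖ ≤ k * (2 * D) := by gcongr
      linarith
    rw [div_le_iff₀ hk0] at h10
    linarith
  have hD0 : 0 ≤ D := norm_nonneg _
  have h11 : ‖w - w'‖ ≤ ‖P e (w - w')‖ + |t| := by
    conv_lhs => rw [dec e (w - w')]
    refine (norm_add_le _ _).trans ?_
    rw [norm_smul, he, mul_one, Real.norm_eq_abs, y_sub]
  have h12 : k * (2 * k * D + D) ≤ k * (6 * k + 1) * D := by nlinarith [mul_nonneg hk0.le hD0, mul_nonneg (mul_nonneg hk0.le hk0.le) hD0]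
  nlinarith

/-- `T` as a homeomorphism. -/
def TH (he : ‖e‖ = 1) (hC : C.Nonempty) (k : ℝ) (hk : 1 ≤ k) : W ≃ₜ W where
  toEquiv := Equiv.ofBijective (T e C k) ⟨(T_anti e C he hC k hk).injective, T_surj e C he hC k hk⟩
  continuous_toFun := T_cont e C he hC k hk
  continuous_invFun := by
    have h1 := (T_anti e C he hC k hk).to_rightInverse
      (Equiv.ofBijective (T e C k) ⟨(T_anti e C he hC k hk).injective,
        T_surj e C he hC k hk⟩).right_inv
    exact h1.continuous

theorem TH_apply (he : ‖e‖ = 1) (hC : C.Nonempty) (k : ℝ) (hk : 1 ≤ k) (w : W) :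
    TH e C he hC k hk w = T e C k w := rfl

/-- The key lower bound. -/
theorem m_big [FiniteDimensional ℝ W] (he : ‖e‖ = 1) (hC : C.Nonempty) (hcl : IsClosed C) (w : W)
    (M : ℝ) (hM : ∀ c ∈ C, pen e w c = 0 → M < y e c) :
    ∀ᶠ n : ℕ in atTop, M ≤ m e C (n + 1) w := by
  let Q : Set W := C ∩ {c | ‖P e (w - c)‖ ≤ 1 ∧ y e w - 1 ≤ y e c ∧ y e c ≤ M}
  have hpc : Continuous fun c => pen e w c := by
    unfold pen
    have h1 := y_cont e
    have h2 := P_cont e
    exact ((continuous_const.sub h1).max continuous_const).add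
      (h2.comp (continuous_const.sub continuous_id)).norm
  have hQ : IsCompact Q := by
    apply Metric.isCompact_of_isClosed_isBounded
    · apply hcl.inter
      have h1 := y_cont e
      have h2 := P_cont e
      exact (isClosed_le (h2.comp (continuous_const.sub continuous_id)).norm continuous_const).inter
        ((isClosed_le continuous_const h1).inter (isClosed_le h1 continuous_const))
    · rw [isBounded_iff_forall_norm_le]
      refine ⟨‖P e w‖ + 1 + (|y e w - 1| + |M|), ?_⟩
      rintro c ⟨-, h1, h2, h3⟩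
      conv_lhs => rw [dec e c]
      refine (norm_add_le _ _).trans ?_
      rw [norm_smul, he, mul_one, Real.norm_eq_abs]
      have h4 : ‖P e c‖ ≤ ‖P e w‖ + 1 := by
        have : P e c = P e w - P e (w - c) := by rw [P_sub]; abel
        rw [this]
        exact (norm_sub_le _ _).trans (by linarith)
      have h5 : |y e c| ≤ |y e w - 1| + |M| := by
        rw [abs_le]
        constructor
        · have := neg_abs_le (y e w - 1)
          have := abs_nonneg M
          linarith
        · have := le_abs_self M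
          have := abs_nonneg (y e w - 1)
          linarith
      linarith
  obtain ⟨δ, hδ, hδQ⟩ : ∃ δ : ℝ, 0 < δ ∧ ∀ c ∈ Q, δ ≤ pen e w c := by
    rcases Q.eq_empty_or_nonempty with h0 | h0
    · exact ⟨1, one_pos, by rw [h0]; simp⟩
    · obtain ⟨c₀, hc₀, hmin⟩ := hQ.exists_isMinOn h0 hpc.continuousOn
      refine ⟨pen e w c₀, ?_, fun c hc => hmin hc⟩
      refine lt_of_le_of_ne (pen_nonneg _ _ _) ?_
      intro h1
      exact absurd (hM c₀ hc₀.1 h1.symm) (not_lt.2 hc₀.2.2.2)
  have hδ1 : 0 < min δ 1 := lt_min hδ one_pos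
  obtain ⟨n₀, hn₀⟩ := exists_nat_ge ((M - y e w) / min δ 1)
  filter_upwards [eventually_ge_atTop n₀] with n hn
  have hn' : (n₀ : ℝ) ≤ n := by exact_mod_cast hn
  apply le_m e C hC
  intro c hc
  have hk : (1 : ℝ) ≤ n + 1 := by linarith [(Nat.cast_nonneg n : (0 : ℝ) ≤ n)]
  have hbig : min δ 1 ≤ pen e w c → M ≤ φ e (n + 1) w c := by
    intro h1
    refine le_trans ?_ (φ_lower e (n + 1) hk w c)
    rw [div_le_iff₀ hδ1] at hn₀
    have h2 : (n₀ : ℝ) * min δ 1 ≤ n * pen e w c := by
      apply mul_le_mul hn' h1 hδ1.le (by positivity)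
    have h3 : ((n : ℝ) + 1 - 1) * pen e w c = n * pen e w c := by ring
    rw [h3]
    linarith
  by_cases h1 : M ≤ y e c
  · unfold φ
    have := mul_nonneg (by positivity : (0 : ℝ) ≤ (n : ℝ) + 1) (pen_nonneg e w c)
    linarith
  · push Not at h1
    by_cases h2 : ‖P e (w - c)‖ ≤ 1
    · by_cases h3 : y e w - 1 ≤ y e c
      · exact hbig ((min_le_left _ _).trans (hδQ c ⟨hc, h2, h3, h1.le⟩))
      · apply hbig
        refine (min_le_right _ _).trans ?_
        unfold pen
        push Not at h3
        have := le_max_left (y e w - y e c) 0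
        have := norm_nonneg (P e (w - c))
        linarith
    · apply hbig
      refine (min_le_right _ _).trans ?_
      unfold pen
      push Not at h2
      have := le_max_right (y e w - y e c) 0
      linarith

/-- Pointwise limits of the maps. -/
theorem T_lim [FiniteDimensional ℝ W] (he : ‖e‖ = 1) (hC : C.Nonempty) (hcl : IsClosed C) (w : W) :
    (∃ c ∈ C, Tendsto (fun n : ℕ => T e C (n + 1) w) atTop (𝓝 c)) ∨
      Tendsto (fun n : ℕ => T e C (n + 1) w) atTop (cocompact W) := by
  have hdiv : Tendsto (fun n : ℕ => y e w / ((n : ℝ) + 1)) atTop (𝓝 0) :=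
    tendsto_const_nhds.div_atTop (tendsto_atTop_add_const_right _ _ tendsto_natCast_atTop_atTop)
  by_cases hB : ∃ c ∈ C, pen e w c = 0
  · left
    obtain ⟨c₁, hc₁, hc₁0⟩ := hB
    have hpen0 : ∀ c, pen e w c = 0 → P e c = P e w ∧ y e w ≤ y e c := by
      intro c hc
      unfold pen at hc
      have h1 := le_max_right (y e w - y e c) 0
      have h2 := norm_nonneg (P e (w - c))
      have h3 : ‖P e (w - c)‖ = 0 := by linarith
      have h4 : max (y e w - y e c) 0 = 0 := by linarith
      have h5 := le_max_left (y e w - y e c) 0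
      rw [norm_eq_zero, P_sub, sub_eq_zero] at h3
      exact ⟨h3.symm, by linarith⟩
    -- the set of admissible points below `c₁` is compact
    let R : Set W := C ∩ {c | pen e w c = 0 ∧ y e c ≤ y e c₁}
    have hpc : Continuous fun c => pen e w c := by
      unfold pen
      have h1 := y_cont e
      have h2 := P_cont e
      exact ((continuous_const.sub h1).max continuous_const).add
        (h2.comp (continuous_const.sub continuous_id)).norm
    have hR : IsCompact R := by
      apply Metric.isCompact_of_isClosed_isBounded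
      · exact hcl.inter ((isClosed_eq hpc continuous_const).inter
          (isClosed_le (y_cont e) continuous_const))
      · rw [isBounded_iff_forall_norm_le]
        refine ⟨‖P e w‖ + (|y e w| + |y e c₁|), ?_⟩
        rintro c ⟨-, h1, h2⟩
        obtain ⟨h3, h4⟩ := hpen0 c h1
        conv_lhs => rw [dec e c]
        refine (norm_add_le _ _).trans ?_
        rw [norm_smul, he, mul_one, Real.norm_eq_abs, h3]
        have h5 : |y e c| ≤ |y e w| + |y e c₁| := by
          rw [abs_le]
          constructor
          · have := neg_abs_le (y e w)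
            have := abs_nonneg (y e c₁)
            linarith
          · have := le_abs_self (y e c₁)
            have := abs_nonneg (y e w)
            linarith
        linarith
    obtain ⟨c₀, hc₀, hmin⟩ := hR.exists_isMinOn ⟨c₁, hc₁, hc₁0, le_rfl⟩ (y_cont e).continuousOn
    obtain ⟨hP, hy⟩ := hpen0 c₀ hc₀.2.1
    refine ⟨c₀, hc₀.1, ?_⟩
    have hm : Tendsto (fun n : ℕ => m e C (n + 1) w) atTop (𝓝 (y e c₀)) := by
      rw [tendsto_order]
      constructor
      · intro a ha
        obtain ⟨M, hM1, hM2⟩ := exists_between ha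
        have := m_big e C he hC hcl w M (by
          intro c hc hc0
          rcases le_total (y e c) (y e c₁) with h1 | h1
          · have := hmin (show c ∈ R from ⟨hc, hc0, h1⟩)
            exact lt_of_lt_of_le hM2 this
          · exact lt_of_lt_of_le hM2 (hc₀.2.2.trans h1))
        filter_upwards [this] with n hn
        linarith
      · intro a ha
        apply Eventually.of_forall
        intro n
        refine lt_of_le_of_lt ?_ ha
        have hk : (1 : ℝ) ≤ n + 1 := by linarith [(Nat.cast_nonneg n : (0 : ℝ) ≤ n)]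
        refine (m_le e C (n + 1) hk w c₀ hc₀.1).trans ?_
        unfold φ
        rw [hc₀.2.1, mul_zero, add_zero]
    have hT : Tendsto (fun n : ℕ => T e C (n + 1) w) atTop (𝓝 (P e w + (y e c₀ + 0) • e)) := by
      unfold T h
      exact tendsto_const_nhds.add ((hm.add hdiv).smul_const e)
    rw [add_zero, ← hP, ← dec] at hT
    exact hT
  · right
    push Not at hB
    rw [← Metric.cobounded_eq_cocompact, ← tendsto_norm_atTop_iff_cobounded]
    have hm : Tendsto (fun n : ℕ => m e C (n + 1) w) atTop atTop := by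
      rw [Filter.tendsto_atTop]
      intro M
      exact m_big e C he hC hcl w M (fun c hc hc0 => absurd hc0 (hB c hc))
    have hh : Tendsto (fun n : ℕ => h e C (n + 1) w) atTop atTop := by
      unfold h
      exact hm.atTop_add hdiv
    apply tendsto_atTop_mono _ hh
    intro n
    have h1 : y e (T e C (n + 1) w) = h e C (n + 1) w := by
      unfold T
      rw [y_add, y_P e he, y_smul, y_e e he]
      ring
    have h2 := y_le e he (T e C (n + 1) w)
    rw [h1] at h2
    exact (le_abs_self _).trans h2

theorem T_fix (hC : C.Nonempty) (c : W)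
    (hc : c ∈ C) : Tendsto (fun n : ℕ => T e C (n + 1) c) atTop (𝓝 c) := by
  have hdiv : Tendsto (fun n : ℕ => y e c / ((n : ℝ) + 1)) atTop (𝓝 0) :=
    tendsto_const_nhds.div_atTop (tendsto_atTop_add_const_right _ _ tendsto_natCast_atTop_atTop)
  have hm : ∀ n : ℕ, m e C (n + 1) c = y e c := by
    intro n
    have hk : (1 : ℝ) ≤ n + 1 := by linarith [(Nat.cast_nonneg n : (0 : ℝ) ≤ n)]
    apply le_antisymm
    · refine (m_le e C (n + 1) hk c c hc).trans ?_
      unfold φ pen
      have : P e (c - c) = 0 := by rw [P_sub, sub_self]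
      rw [this, sub_self]
      simp
    · exact m_lower e C hC (n + 1) hk c
  have hT : Tendsto (fun n : ℕ => T e C (n + 1) c) atTop (𝓝 (P e c + (y e c + 0) • e)) := by
    unfold T h
    simp_rw [hm]
    exact tendsto_const_nhds.add ((tendsto_const_nhds.add hdiv).smul_const e)
  rw [add_zero, ← dec] at hT
  exact hT

theorem main (n : ℕ) (hn : 2 ≤ n) (C : Set ↥(sphere (0 : EuclideanSpace ℝ (Fin n)) (1 : ℝ)))
    (hC : IsClosed C) (hne : C.Nonempty) :
    ∃ H : ℕ → (↥(sphere (0 : EuclideanSpace ℝ (Fin n)) (1 : ℝ)) ≃ₜ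
        ↥(sphere (0 : EuclideanSpace ℝ (Fin n)) (1 : ℝ))),
      (∀ p, ∃ q ∈ C, Tendsto (fun k : ℕ => H k p) atTop (𝓝 q)) ∧
      (∀ q ∈ C, ∃ p, Tendsto (fun k : ℕ => H k p) atTop (𝓝 q)) := by
  obtain ⟨v, hvC⟩ := hne
  have hv : ‖(v : EuclideanSpace ℝ (Fin n))‖ = 1 := norm_eq_of_mem_sphere v
  let W := (ℝ ∙ (v : EuclideanSpace ℝ (Fin n)))ᗮ
  let e₀ : OnePoint W ≃ₜ ↥(sphere (0 : EuclideanSpace ℝ (Fin n)) (1 : ℝ)) :=
    onePointHyperplaneHomeoUnitSphere hv
  have he₀ : e₀ OnePoint.infty = v := rfl
  have hW : Nontrivial W := by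
    have hfact : Fact (Module.finrank ℝ (EuclideanSpace ℝ (Fin n)) = (n - 1) + 1) :=
      ⟨by rw [finrank_euclideanSpace_fin]; omega⟩
    have hv0 : (v : EuclideanSpace ℝ (Fin n)) ≠ 0 := by
      intro h0; rw [h0, norm_zero] at hv; exact zero_ne_one hv
    have h1 : Module.finrank ℝ W = n - 1 := Submodule.finrank_orthogonal_span_singleton hv0
    apply Module.nontrivial_of_finrank_pos (R := ℝ)
    omega
  obtain ⟨e, he⟩ := exists_norm_eq W zero_le_one
  let C' : Set W := {w | e₀ (w : OnePoint W) ∈ C}
  have hcoe : Continuous fun w : W => e₀ (w : OnePoint W) :=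
    e₀.continuous.comp OnePoint.continuous_coe
  have hC' : IsClosed C' := hC.preimage hcoe
  -- conjugation
  let G : (W ≃ₜ W) → (↥(sphere (0 : EuclideanSpace ℝ (Fin n)) (1 : ℝ)) ≃ₜ
        ↥(sphere (0 : EuclideanSpace ℝ (Fin n)) (1 : ℝ))) :=
    fun F => e₀.symm.trans (F.onePointCongr.trans e₀)
  have hGv : ∀ F, G F v = v := by
    intro F
    have h1 : e₀.symm v = OnePoint.infty := by rw [← he₀, e₀.symm_apply_apply]
    change e₀ (F.onePointCongr (e₀.symm v)) = v
    rw [h1]
    rfl
  have hGw : ∀ F (w : W), G F (e₀ w) = e₀ ((F w : W) : OnePoint W) := by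
    intro F w
    change e₀ (F.onePointCongr (e₀.symm (e₀ w))) = _
    rw [e₀.symm_apply_apply]
    rfl
  have hlim1 : ∀ (F : ℕ → (W ≃ₜ W)) (w c : W), Tendsto (fun k => F k w) atTop (𝓝 c) →
      Tendsto (fun k => G (F k) (e₀ w)) atTop (𝓝 (e₀ c)) := by
    intro F w c h1
    simp_rw [hGw]
    exact (hcoe.tendsto c).comp h1
  have hlim2 : ∀ (F : ℕ → (W ≃ₜ W)) (w : W), Tendsto (fun k => F k w) atTop (cocompact W) →
      Tendsto (fun k => G (F k) (e₀ w)) atTop (𝓝 v) := by
    intro F w h1
    simp_rw [hGw]
    rw [← he₀]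
    rw [← coclosedCompact_eq_cocompact] at h1
    exact (e₀.continuous.tendsto _).comp (OnePoint.tendsto_coe_infty.comp h1)
  have hcases : ∀ p : ↥(sphere (0 : EuclideanSpace ℝ (Fin n)) (1 : ℝ)), p = v ∨
      ∃ w : W, p = e₀ w := by
    intro p
    obtain ⟨q, rfl⟩ := e₀.surjective p
    induction q using OnePoint.rec with
    | infty => left; exact he₀
    | coe w => right; exact ⟨w, rfl⟩
  by_cases hne : C'.Nonempty
  · have hk : ∀ k : ℕ, (1 : ℝ) ≤ (k : ℝ) + 1 := fun k => by
      linarith [(Nat.cast_nonneg k : (0 : ℝ) ≤ k)]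
    let F : ℕ → (W ≃ₜ W) := fun k => TH e C' he hne (k + 1) (hk k)
    refine ⟨fun k => G (F k), ?_, ?_⟩
    · intro p
      rcases hcases p with rfl | ⟨w, rfl⟩
      · refine ⟨p, hvC, ?_⟩
        simp_rw [hGv]
        exact tendsto_const_nhds
      · rcases T_lim e C' he hne hC' w with ⟨c, hc, h1⟩ | h1
        · exact ⟨e₀ c, hc, hlim1 F w c h1⟩
        · exact ⟨v, hvC, hlim2 F w h1⟩
    · intro q hq
      rcases hcases q with rfl | ⟨w, rfl⟩
      · refine ⟨q, ?_⟩
        simp_rw [hGv]
        exact tendsto_const_nhds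
      · exact ⟨e₀ w, hlim1 F w w (T_fix e C' hne w hq)⟩
  · let F : ℕ → (W ≃ₜ W) := fun k => Homeomorph.addRight ((k : ℝ) • e)
    refine ⟨fun k => G (F k), ?_, ?_⟩
    · intro p
      refine ⟨v, hvC, ?_⟩
      rcases hcases p with rfl | ⟨w, rfl⟩
      · simp_rw [hGv]
        exact tendsto_const_nhds
      · apply hlim2 F w
        rw [← Metric.cobounded_eq_cocompact, ← tendsto_norm_atTop_iff_cobounded]
        have h1 : Tendsto (fun k : ℕ => (k : ℝ) - ‖w‖) atTop atTop :=
          tendsto_atTop_add_const_right _ _ tendsto_natCast_atTop_atTop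
        apply tendsto_atTop_mono _ h1
        intro k
        change (k : ℝ) - ‖w‖ ≤ ‖w + (k : ℝ) • e‖
        have h2 : ‖(k : ℝ) • e‖ = k := by rw [norm_smul, he, mul_one, Real.norm_natCast]
        have h3 := norm_sub_le (w + (k : ℝ) • e) w
        rw [add_sub_cancel_left, h2] at h3
        linarith
    · intro q hq
      rcases hcases q with rfl | ⟨w, rfl⟩
      · refine ⟨q, ?_⟩
        simp_rw [hGv]
        exact tendsto_const_nhds
      · exact absurd ⟨w, hq⟩ hne

end

end Pool.Agent.H8.Sph
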